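import Pool.Agent.U173.CF.Main

/-!
# Common `ℚ`-forms of the `ℓ`-adic monodromy groups of products of abelian varieties

Let `F` be a number field, `Γ` its Galois group, `W₀` the Betti cohomology with coefficients `ℚ` (by
an embedding of an algebraic closure of `F` in `ℂ`) and `W ℓ` the `ℓ`-adic cohomology with coefficients in an
algebraic closure of `ℚ_ℓ`. The comparison isomorphisms give homomorphisms `c ℓ : W₀.H A → (W ℓ).H A`
(`Comparison`, `IsComparison`). The theorem is proved for abstract Weil cohomology theories, an abstract
group and actions with the formal properties of the Galois action.

For an abelian variety `A` over `F` the question of Mumford, Serre and Tate (Q1) is whether the groups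
`(G_ℓ)°` are, for all sufficiently large `ℓ`, the base changes of one reductive group `G ⊆ GSp(V, ψ)` over
`ℚ`. As `(G_ℓ)°` is reductive (Faltings), it is determined by its invariants in the tensor constructions,
that is by the Tate classes on the powers of `A`; so such a group `G` exists if and only if there are
subspaces `R_n(A^r)` of the Betti cohomology of the powers such that for all sufficiently large `ℓ`, all `r`
and all `n` the Tate classes of codimension `n` on `A^r` in the `ℓ`-adic cohomology are spanned by the
image of `R_n(A^r)`. (`G` is the group of the elements which act on `R_n(A^r)` by the `n`-th power of a
character; conversely, `R_n(A^r)` is the space of the classes in `H^(2n)(A^r, ℚ)` on which `G` acts in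
this way.) This is `HaveCommonForm c χ A` for the family `A r = A^r`. The definition makes sense
for all families of varieties.

**Theorem.** Let `X_i`, `Y_j`, `Z` be families of varieties (for instance the powers of abelian varieties)
which for all sufficiently large `ℓ` form a system `IsProductSystem` (as in
`MP_640417_ag.ProductAndFactors`): the cohomology of `X_i` is, for suitable places `v`, separated from the
cohomology of the others by the slope fields, in the sense that the slope field `L_i(v)` of `X_i` at `v`
meets slope fields of the others at `v` in totally real fields. Let `B' = ∏ Y_j × Z` and `V = ∏ X_i × B'`.
Then **`V` has a common `ℚ`-form if and only if all `X_i` and `B'` have common `ℚ`-forms.** No case of the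
Mumford–Tate conjecture is assumed.

For abelian varieties `A_1, …, A_n` and `B` over `F` the condition is for instance satisfied if there are
places `v_i` of good reduction, at which the Frobenius tori of `A_i` are maximal tori of the monodromy
groups of `A_i` (this holds at almost all places, after a finite extension of `F`), and at which the slope
fields `L_i` of `A_i` and the slope fields of `A_j`, `j > i`, and of `B` meet in totally real fields.
Examples of slope fields of an abelian variety with good reduction at `v` are the subfields `L` of the
field generated by the Frobenius eigenvalues and their conjugates which contain the decomposition field of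
a place above `p`.

Proof. The Tate classes on `X_i × V'`, `V'` the product of the factors behind `X_i`, are linear combinations
of products of Tate classes on the factors (`U173/PQ`). So products of forms are forms. Conversely,
integration over the second factor against a zero-cycle of nonzero degree (`slice₁`) maps a form
of the space of the Tate classes on the product to a form of the space of the Tate classes on the first
factor, since it is compatible with the comparison and maps the Tate classes on the product onto
the Tate classes on the first factor; in the same way for the second factor.
-/

set_option autoImplicit false

open CategoryTheory AlgebraicGeometry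

universe u

namespace Pool.Agent.Results.MP_e965d0_ag.CommonFormProducts

open Pool.Agent.H914 Pool.Agent.H914.VarClass Pool.Agent.H914.VarClass.Obj
  Pool.Agent.H914.WeilCohomology Pool.Agent.H281R3.HT Pool.Agent.TH125.Gal Pool.Agent.U173.PT
  Pool.Agent.U173.PQ Pool.Agent.U173.CF

/-- **A product of varieties with separated slope fields has a common `ℚ`-form of its `ℓ`-adic Tate
classes for all large `ℓ` if and only if all its factors have common forms.** -/
theorem result {k : Type u} [Field k] {𝒱 : VarClass k} {ops : CycleOps 𝒱}
    (W₀ : WeilCohomology.{u, 0} ops) (W : Nat.Primes → WeilCohomology.{u, 0} ops)
    (c : ∀ ℓ, Comparison W₀ (W ℓ)) {Γ : Type} [Group Γ] (χ : ∀ ℓ, Γ →* (W ℓ).Kˣ) {I I' : Type}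
    (P : Nat.Primes → I → Set (Place Γ))
    (E L : I → Place Γ → IntermediateField ℚ (AlgebraicClosure ℚ)) (X : I → ℕ → Model W Γ)
    (Y : I' → ℕ → Model W Γ) (Z : ℕ → Model W Γ) (l : List I) (l' : List I')
    (h : IsFormSystem c χ P E L X Y Z l l') (B V : ℕ → Model W Γ)
    (hB : ∀ r, IsTower (fun j => Y j r) (Z r) l' (B r))
    (hV : ∀ r, IsTower (fun i => X i r) (B r) l (V r)) :
    HaveCommonForm c χ V ↔ (∀ i ∈ l, HaveCommonForm c χ (X i)) ∧ HaveCommonForm c χ B :=
  main h hB hV

end Pool.Agent.Results.MP_e965d0_ag.CommonFormProducts
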