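import Pool.Agent.U442.Sel.Fin
import Pool.Agent.U442.Sel.Ex
import Pool.Agent.U442.Gro.FormMain

/-!
# Common `ℚ`-form of the `ℓ`-adic monodromy groups: the Jacobians of the curves `y ^ 2 = x ^ n - x - 1` and
# arbitrary abelian varieties

For odd `n ≥ 7` let `J n` be the Jacobian of the curve `y ^ 2 = x ^ n - x - 1` over `ℚ`, of dimension
`(n - 1) / 2`. The group `J n (F)`, for an algebraically closed field `F`, is the class group of the
ring `F[x, y]` of the affine curve (the curve has one point at infinity), and `V_2 (J n)` is its rational
2-adic Tate module. We consider finite sets of different odd numbers `n i ≥ 7` and the product `A` of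
the `J (n i)`.

Let `L` be a number field, and `t` any integral 2-adic representation of the absolute Galois group of
`L`, of any rank `d`, in the form of its matrices over the 2-adic integers; for instance the cohomology
`H^i(Z, ℤ_2)` (modulo torsion) of any abelian variety (or smooth projective variety) `Z` over `L`. Let `E`
be a finite normal extension of `ℚ` which contains `L` and over which `t` is trivial modulo two. (If
`L = ℚ` one can take the field of definition of the action modulo two; its degree divides the order of
`GL_d (𝔽_2)`.) We assume that all `n i` are `Allowed`: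

* `(n i)!` does not divide the degree of `E` (this is so if `(n i)! > [E : ℚ]`, so for all but finitely
  many `n`, and for `L = ℚ` for all `n` with `n! > 2 ^ (d ^ 2)`), or
* some prime number `p` which divides `n ^ n - (n - 1) ^ (n - 1)`, `n = n i`, with an odd exponent is
  unramified in `E` (for instance, for `L = ℚ`, if `Z` has good reduction at `p`). There are such odd
  prime numbers `p` for every odd `n ≥ 7` (`MP_09799c_ag.ExplicitTrinomials`).

**Theorem.** `AllForms`: for ALL pure motives `M` in the tensor category generated by `Z` (`Generated`;
for instance the cohomology of all powers `Z ^ b` and its Tate twists) and for all `N` (`CommonForms`):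
if the Tate classes of `M` have a common rational form from `N` on (`FormMotive`: for all prime numbers
`ℓ ≥ N` and all twists `j` the Tate classes in the `ℓ`-adic realization `M_ℓ(j)` are linear combinations
over `ℚ_ℓ` of vectors in the rational space `M₀` which are Tate classes for ALL prime numbers `≥ N`), then
the Tate classes on all powers of `A` with values in `M` have a common rational form from the same `N`
on (`FormPowers`): for `ℓ ≥ N` the Tate classes in the spaces of alternating maps from `V_ℓ(A) ^ n` to
`M_ℓ(j)` are linear combinations over `ℚ_ℓ` of alternating maps from `H_1(A, ℚ) ^ n` to `M₀` which are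
Tate classes for ALL prime numbers `≥ N`. (The theorem of Faltings for the degree two part of `A ^ n`
alone is used in the form `FormDegreeTwo`; it is true for all `N`.)

If `Z = B` is an abelian variety, then the spaces of all alternating maps from `V_ℓ(A) ^ n` to
`H^j(B ^ n, ℚ_ℓ)` are the cohomology of `(A × B) ^ n` (Kunneth). The identity component of the Zariski
closure of the image of the Galois group is reductive and contains the homotheties; it is the group
of the elements of `GSp` which fix all Tate classes. So the Tate classes of all `B ^ b` have a common
rational form from `N` on if and only if there is a connected reductive group over `ℚ` which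
becomes the connected monodromy group of `B` over `ℚ_ℓ` for all `ℓ ≥ N`; and then this is true for
`A × B`, and for all `J 1 ^ m 1 × ... × J r ^ m r × B ^ b`. This translation is not formalized. The
dimension of `B` is arbitrary and nothing is assumed about `B` besides `Allowed`.

What is new: explicit curves in every genus `≥ 3`, and arbitrary `B` if `n! > [E : ℚ]`. In
`MP_e965d0_ag.CommonFormsOutsideS` the polynomials are 100% of all tuples, and `B` has good reduction
outside of a fixed set. Proof: the Tate classes are combinations of products by
`MP_09799c_ag.ExplicitTrinomials`; products of common rational classes are common rational classes, and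
by multilinearity they generate all products.
-/

set_option autoImplicit false

namespace Pool.Agent.Results.MP_e965d0_ag.ExplicitTrinomialForms

open Polynomial NumberField
open Pool.Agent.U442.Htj (Generated)
open Pool.Agent.U442.Htj.EP (AbsoluteGaloisGroup matRep)
open Pool.Agent.U442.Gro (CommonForms)
open Pool.Agent.U442.Sel (UnramifiedAt)

/-- the matrices over `ℚ_2` -/
noncomputable def toQ {G : Type} [Group G] {d : ℕ} (t : G →* Matrix (Fin d) (Fin d) ℤ_[2]) :
    G →* Matrix (Fin d) (Fin d) ℚ_[2] :=
  ((algebraMap ℤ_[2] ℚ_[2]).mapMatrix : Matrix (Fin d) (Fin d) ℤ_[2] →+* _).toMonoidHom.comp t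

/-- The matrix of `s` is congruent to one modulo two. -/
def TrivialModTwo {G : Type} [Group G] {d : ℕ} (t : G →* Matrix (Fin d) (Fin d) ℤ_[2]) (s : G) :
    Prop :=
  (t s).map (PadicInt.toZMod (p := 2)) = 1

/-- **Common rational forms for all motives in the tensor category generated by `Z`.** -/
def AllForms {L : Type} [Field L] [NumberField L] {ι : Type} (f : ι → L[X]) {d : ℕ}
    (t : AbsoluteGaloisGroup L →* Matrix (Fin d) (Fin d) ℤ_[2]) : Prop :=
  ∀ (m : ℕ) (ν : AbsoluteGaloisGroup L →* Matrix (Fin m) (Fin m) ℚ_[2]), Continuous ν →
    Generated (matRep (toQ t)) (Fin m → ℚ_[2]) (matRep ν) → CommonForms f ν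

/-- The number `n` is odd and at least seven, and `n!` does not divide the degree of `E`, or some prime
number which divides `n ^ n - (n - 1) ^ (n - 1)` with an odd exponent is unramified in `E`. -/
def Allowed (E : Type) [Field E] [NumberField E] (n : ℕ) : Prop :=
  7 ≤ n ∧ Odd n ∧ (¬ n.factorial ∣ Module.finrank ℚ E ∨
    ∃ p : ℕ, p.Prime ∧ Odd (padicValNat p (n ^ n - (n - 1) ^ (n - 1))) ∧ UnramifiedAt p E)

/-- **Common `ℚ`-form for the products of the Jacobians of the curves `y ^ 2 = x ^ n - x - 1` with
arbitrary abelian varieties.** -/
theorem result (L : Type) [Field L] [NumberField L] (E : IntermediateField ℚ (AlgebraicClosure L))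
    [NumberField E] (hE : Normal ℚ E) (hL : ∀ x : L, algebraMap L (AlgebraicClosure L) x ∈ E)
    (d : ℕ) (t : AbsoluteGaloisGroup L →* Matrix (Fin d) (Fin d) ℤ_[2])
    (ht : ∀ s : AbsoluteGaloisGroup L, (∀ x ∈ E, s x = x) → TrivialModTwo t s)
    (I : Type) [Fintype I] [Nonempty I] (n : I → ℕ) (hinj : Function.Injective n)
    (hall : ∀ i, Allowed E (n i)) : AllForms (fun i => (X ^ n i - X - 1 : L[X])) t := by
  intro m ν hν hgen
  have hac : IsAlgClosure ℚ (AlgebraicClosure L) :=
    ⟨inferInstance, Algebra.IsAlgebraic.trans ℚ L (AlgebraicClosure L)⟩
  have hx : ∀ i, ∃ x : Pool.Agent.U442.Sel.RT (n i) (AlgebraicClosure L),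
      (x : AlgebraicClosure L) ∉ E := by
    intro i
    obtain ⟨h7, ho, h | ⟨p, hp, h1, h2⟩⟩ := hall i
    · exact Pool.Agent.U442.Sel.outside_of_degree (by omega) h
    · exact Pool.Agent.U442.Sel.outside_of_prime (by omega) ho hp h2 h1
  exact Pool.Agent.U442.Gro.commonForms_of_everyPrime (Pool.Agent.U442.Htj.EP.everyPrime_of_gd _
    (fun i => Pool.Agent.U442.Sel.hypP (hall i).1 (hall i).2.1) ν hν
    (Pool.Agent.U442.Sel.gd hE hL t ht n hinj (fun i => (hall i).1) hx
      (Pool.Agent.U442.Htj.governed_of_generated (Pool.Agent.U442.Htj.EP.hasMatrices_toQ t) hgen)))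

end Pool.Agent.Results.MP_e965d0_ag.ExplicitTrinomialForms
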