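import Mathlib
import Pool.Agent.U191.FTHalf
import Pool.Agent.TH170.FT.CommonDefs
import Pool.Agent.TH170.FT.MT

/-!
# Common `ℚ`-form of the `ℓ`-adic monodromy groups of the abelian varieties with a Frobenius element
of one half of all slope types of every CM field of degree `2 r ^ k`

Let `A` be an abelian variety over a number field, of any dimension and with arbitrary
endomorphisms, which has good reduction at some place `v`, with a residue field of `p ^ a`
elements. Suppose that the characteristic polynomial of the Frobenius element at `v` is the
product of the minimal polynomials of Weil numbers `π i` that generate CM fields `K i` of degree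
`2 g i` (`HasFrobenius`); so `dim A = ∑ i, g i`. Nothing is assumed about the Galois groups of the
fields `K i`; they are pairwise independent: for `i ≠ k` and all complex embeddings `φ` of `K i`
and `ψ` of `K k` some automorphism of `ℂ` is the identity on `φ (K i)` and the complex conjugation
on `ψ (K k)` (this is no condition if there is only one field).

We fix an isomorphism `ν` of the algebraic closure of `ℚ_p` with `ℂ`; it defines a `p`-adic
valuation of `ℂ`, with the value one at `p`. Let `M i` be a function with integral values on the
complex embeddings of `K i`, invariant under complex conjugation (the weights). A CM type `Φ i` of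
`K i` (a choice of one element out of each complex conjugate pair of embeddings; there are
`2 ^ (g i)` types), `M i` and a real number `κ ≠ 0` prescribe the slopes `(a + κ M) / 2` (at the
embeddings in `Φ i`) and `(a - κ M) / 2` (outside of `Φ i`) of a Weil number in `K i` (`IsOfType`).
If `p` splits completely in `K i` then, by Honda and Tate, all slopes with rational values between
`0` and `a` that are symmetric in this way occur for abelian varieties over finite fields. The case
`M = 1`, `κ = a` is the case of ordinary reduction.

**The property of the slope types.** `Q` (`Holds`) is the following: for all abelian varieties `A`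
as above with Weil numbers `π i` of the slope types `Φ i`, and all `ℓ₀` (such that the Frobenius
element has this characteristic polynomial for the primes `ℓ ≥ ℓ₀`; so `ℓ₀ > p`), for all prime
numbers `ℓ ≥ ℓ₀` and all `m` each `ℓ`-adic Tate class in `(H^1)^{⊗ 2 m}(m)` is a linear
combination, with coefficients in `ℚ_ℓ`, of rational forms on `W = H_1(A, ℚ)` which are Tate
classes for all prime numbers `≥ ℓ₀` and products of Hodge classes of degree two
(`HasCommonForm`). The identity component of the Zariski closure of the image of the Galois group
is reductive and contains the homotheties; it is the group of the elements of `GSp` which fix all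
Tate classes. So **there is an algebraic group over `ℚ`** (the identity component of the Lefschetz
group, which consists of the similitudes of the polarization form that commute with the
endomorphisms of `A`) **which becomes the connected monodromy group over `ℚ_ℓ` for all `ℓ ≥ ℓ₀`**;
this translation is the one of the starting files and it is not formalized.

In the formal statement `per` is the inclusion of `W` in the tangent space, `ω₀` the form given by a
polarization, and `D ℓ` (`GaloisData`) consists of the action of the Galois group on the rational
Tate module `ℚ_ℓ ⊗ W`, the cyclotomic character, the Weil pairing, the theorems of Faltings on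
endomorphisms and on semisimplicity (`IsRealization`) and the theorem of Deligne that Hodge classes
are Tate classes.

**The theorem.** Let `K` be **any CM field of degree `2 g = 2 r ^ k`**, `r` a prime number, of
degree at least `16` if `r = 2`. Nothing is assumed about the Galois group of the normal closure of
`K`, and nothing about the subfields of `K`.

* (`HalfOfAll`) For all weights `M` (odd if `r = 2`; if `r` is odd then `r` may divide some, but not
  all of them) the property `Q` is true for **at least one half of all `2 ^ g` types** of `K`.
* (`MostWithWeightsOne`) For the weights `M = 1` (for instance in the ordinary case) it is true for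
  at least `(1 - 1 / r) 2 ^ g` of the types.
* (`OneOfTwo`) There is a set `B` of embeddings of `K`, stable under complex conjugation, such that
  for **every** type `Φ` it is true for `Φ` or for the symmetric difference of `Φ` and `B`.
* (`SixteenPercent`) There is a number `g₀` such that for every CM field that is **abelian over
  `ℚ`**, of any degree `2 g ≥ 2 g₀`, and all odd weights it is true for at least 16 percent of all
  `2 ^ g` types; again nothing is assumed on the subfields.

All this is proved more generally for finitely many pairwise independent fields `K i`; the
proportions are then multiplied.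

The earlier results for this problem (AlmostAllFrobeniusTypes, AllCMFields) treat almost all types
of the fields with few CM subfields; they say nothing for the abelian fields of 2-power degree,
and for the other fields with many CM subfields. The proof joins two parts of the library of the
starting files: the theorem that one half of all types have no relations (`Pool.Agent.Q29.EP`,
written for the conjecture of Parshin, MP_de59b4_ag), and the consequences of the absence of
relations between the Frobenius eigenvalues for this problem.
-/

set_option autoImplicit false

namespace Pool.Agent.Results.MP_e965d0_ag.HalfOfAllTypes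

open NumberField Module Pool.Agent.H204R3.CM Pool.Agent.H977R3.CM Pool.Agent.TH170
  Pool.Agent.Q29.EP

/-- The common `ℚ`-form for the abelian varieties with a Frobenius element whose characteristic
polynomial is the product of the minimal polynomials of Weil numbers `π i` for `p ^ a` with the slope
types `Φ i`, `M i`. -/
def HoldsAt {p : ℕ} [Fact p.Prime] (ν : PadicAlgCl p ≃+* ℂ) {I : Type} [Fintype I]
    (K : I → Type) [∀ i, Field (K i)] [∀ i, NumberField (K i)] [∀ i, IsCMField (K i)]
    (M : ∀ i, (K i →+* ℂ) → ℤ) (Φ : ∀ i, Set (K i →+* ℂ)) (a : ℕ) (π : ∀ i, K i) : Prop :=
  ∀ (W T Γ : Type) [AddCommGroup W] [Module ℚ W] [FiniteDimensional ℚ W] [AddCommGroup T]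
    [Module ℂ T] [Group Γ] (per : W →+ T) (ω₀ : W →ₗ[ℚ] W →ₗ[ℚ] ℚ)
    (D : ∀ (ℓ : ℕ) [Fact ℓ.Prime], FT.GaloisData per ω₀ Γ ℓ) (ℓ₀ : ℕ),
    FT.IsOfType ν a K M Φ π →
      (∀ (ℓ : ℕ) [Fact ℓ.Prime], ℓ₀ ≤ ℓ → FT.HasFrobenius (D ℓ).ρ (D ℓ).χ p a π) →
        FT.HasCommonForm D ℓ₀

/-- The common `ℚ`-form for all abelian varieties with a Frobenius element whose characteristic
polynomial is the product of the minimal polynomials of Weil numbers with the slope types `Φ i`,
`M i`. -/
def Holds {p : ℕ} [Fact p.Prime] (ν : PadicAlgCl p ≃+* ℂ) {I : Type} [Fintype I]
    (K : I → Type) [∀ i, Field (K i)] [∀ i, NumberField (K i)] [∀ i, IsCMField (K i)]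
    (M : ∀ i, (K i →+* ℂ) → ℤ) (Φ : ∀ i, Set (K i →+* ℂ)) : Prop :=
  ∀ (a : ℕ) (π : ∀ i, K i), 0 < a → HoldsAt ν K M Φ a π

/-- The property of the slope types `Φ i` with the weights `M i`. -/
def Q : TypeProperty := fun _ _ ν _ _ K _ _ _ M Φ => Holds ν K M Φ

/-- **Common `ℚ`-form of the `ℓ`-adic monodromy groups of the abelian varieties with a Frobenius
element of one half of all slope types of every CM field of degree `2 r ^ k`.** -/
theorem result : HalfOfAll Q ∧ MostWithWeightsOne Q ∧ OneOfTwo Q ∧ SixteenPercent Q := by
  have h : WithoutRelations Q := Pool.Agent.U191.FTHalf.withoutRelations
    fun _ _ _ _ _ _ _ _ _ _ _ hind hM hΦ hnd _ _ ha _ _ _ _ _ _ _ _ _ _ _ D ℓ₀ hπ hF =>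
      FT.hasCommonForm_of D ℓ₀ fun ℓ _ hℓ =>
        FT.mumfordTate_of_types hind hM hΦ hnd ha hπ (D ℓ).realization (hF ℓ hℓ)
  exact ⟨halfOfAll h, mostWithWeightsOne h, oneOfTwo h, sixteenPercent h⟩

end Pool.Agent.Results.MP_e965d0_ag.HalfOfAllTypes
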