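import Mathlib
import Pool.Agent.U103.CF.Main
import Pool.Agent.U103.CF.Pairs

/-!
# One class of degree four for each prime decides the existence of a common rational form

Let `A` be an abelian variety over a number field, of any dimension and with arbitrary
endomorphisms. `W = H_1(A, ℚ)`, `T` is the tangent space at the origin and `per : W → T` the
inclusion; `ω₀` is the Riemann form of a polarization. For each prime `ℓ` the rational Tate module is
`V_ℓ = ℚ_ℓ ⊗ W`, with the continuous action `ρ ℓ` of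
the Galois group `Γ`, the cyclotomic character `χ ℓ` and the Weil pairing (`IsTateSystem`). An
`ℓ`-adic Tate class (`IsTateTensor`) is a multilinear form in `2 m` variables on `V_ℓ` on which a subgroup of finite
index of `Γ` acts through `(χ ℓ) ^ m`, that is, a Tate class in `(H^1)^{⊗ 2 m} (m)`. The known
theorems which are used are hypotheses (`KnownTheorems`): the theorems of Faltings (`Semisimple`, `Faltings`), the
theorem of Deligne that Hodge classes on abelian varieties are Tate classes (`Deligne`), and the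
theorem that the Mumford-Tate conjecture holds for the centres (Vasiu, Ullmo-Yafaev; `Centres`).

Let `Q` be a set of primes, for example all sufficiently large primes. A rational form `ψ` on
`W` is a *common Tate class* (`IsCommonTate`) if its extension to `V_ℓ` is an `ℓ`-adic Tate class for
each `ℓ` in `Q`. A rational space `𝔤` of endomorphisms of `W` is a *common rational form of the Lie
algebras* (`IsCommonLie`) if for each `ℓ` in `Q` the space `ℚ_ℓ ⊗ 𝔤` consists of the endomorphisms of
`V_ℓ` which annihilate all `ℓ`-adic Tate classes, of all degrees: by Faltings' theorem the group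
`G_ℓ` (the identity component of the Zariski closure of the image of the Galois group) is reductive,
so that, modulo the homotheties, this is the Lie algebra of `G_ℓ`. A connected group is determined by
its Lie algebra, so this is the existence of a `ℚ`-group `G` with `G_{ℚ_ℓ} = G_ℓ` for each `ℓ` in
`Q`, the question `Q1` for `A`.

**Theorem.** There are classes `Θ_ℓ` in `(H^1)^{⊗ 4} (2)` (so in `H^4(A ^ 4, ℚ_ℓ(2))`), one for each
prime `ℓ`, fixed by the whole Galois group, such that for EVERY set `Q` of primes the following are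
equivalent.

1. The one class `Θ_ℓ` is for each `ℓ` in `Q` a linear combination of common Tate classes.
2. For every two primes `ℓ`, `ℓ'` in `Q` the class `Θ_ℓ` is a linear combination of rational forms
   which are Tate classes for the primes `ℓ` and `ℓ'`.
3. The `ℓ`-adic Tate classes in all `(H^1)^{⊗ 2 m} (m)` are for each `ℓ` in `Q` linear combinations
   of common Tate classes.
4. The Lie algebras of the `ℓ`-adic monodromy groups, `ℓ` in `Q`, have a common rational form.

So the question is about classes of degree four, one for each prime, and about two primes at a time.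

In particular, if the Tate classes of degree four, that is, those of codimension two on `A ^ 4` (the
Künneth component `(H^1)^{⊗ 4}`), are spanned for all large `ℓ` by rational classes which do not
depend on `ℓ`, then the same is true in all degrees, and `Q1` has a positive answer for `A`; if the
answer for `A` is negative, then this shows in the classes `Θ_ℓ` of degree four. The common classes
are not assumed to be Hodge classes.

The proof. The class `Θ_ℓ` is the Casimir form of the Lie algebra `𝔥_ℓ` of all endomorphisms which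
annihilate the Tate classes (`Pool.Agent.U188.MTQ`, by helper188): an endomorphism which is skew,
commutes with the endomorphisms of `A` and annihilates `Θ_ℓ` is in `𝔥_ℓ` up to the centre of
`End(A) ⊗ ℚ_ℓ`. Let `𝔤` be the space of the rational endomorphisms which annihilate the common Tate
classes. If 1 holds then `ℚ_ℓ ⊗ 𝔤` is in `𝔥_ℓ` by this and the theorem on centres, and the other
inclusion is linear algebra: what annihilates the common classes over `ℚ_ℓ` is a combination of
rational endomorphisms which do it. If `ℚ_ℓ ⊗ 𝔤 = 𝔥_ℓ` for all `ℓ` in `Q`, then the rational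
components of an `ℓ`-adic Tate class are annihilated by `𝔤`, so by `𝔥_{ℓ'}` for each `ℓ'` in `Q`, and
a form annihilated by `𝔥_{ℓ'}` is an `ℓ'`-adic Tate class: for `s` near `1` in the Galois group the
operator `U : φ ↦ χ(s) ^ (-m) φ(ρ(s) ·)` is congruent to one modulo `ℓ' ^ 2`, so that
`‖U φ - φ‖ ≤ ‖U ^ (ℓ' ^ k) φ - φ‖ / ‖ℓ' ^ k‖`, and the right hand side tends to zero along a sequence,
as the logarithm of `ρ(s)` minus half of that of `χ(s)` is in `𝔥_{ℓ'}`. The space `𝔤` consists of the
rational endomorphisms which are in `𝔥_ℓ`, for any one `ℓ` in `Q`; so the spaces of two pairs of primes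
with a common member are equal, and pairs are enough.
-/

namespace Pool.Agent.Results.MP_e965d0_ag.QuarticClassesDecide

open Module TensorProduct Pool.Agent.W516.MTD Pool.Agent.U103.CF
open Pool.Agent.H204R3.GP (IsTateTensor)

/-- **One class of degree four for each prime decides the existence of a common rational form.** -/
theorem result
    -- the complex torus `A(ℂ)` with a polarization
    {W T : Type} [AddCommGroup W] [Module ℚ W] [FiniteDimensional ℚ W] [AddCommGroup T] [Module ℂ T]
    (per : W →+ T) (hper : IsRationalStructure per)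
    (ω₀ : W →ₗ[ℚ] W →ₗ[ℚ] ℚ) (hR : IsRiemannForm per ω₀)
    -- the Galois group and the Tate modules, for all primes
    {Γ : Type} [Group Γ] [TopologicalSpace Γ] [IsTopologicalGroup Γ] [CompactSpace Γ]
    (ρ : ∀ (ℓ : ℕ) [Fact ℓ.Prime], Representation ℚ_[ℓ] Γ (ℚ_[ℓ] ⊗[ℚ] W))
    (χ : ∀ (ℓ : ℕ) [Fact ℓ.Prime], Γ →* ℚ_[ℓ]) (hρ : IsTateSystem ρ χ ω₀)
    -- the theorems of Faltings, Deligne, and Vasiu, Ullmo-Yafaev
    (hK : KnownTheorems ρ χ per) :
    ∃ Θ : ∀ (ℓ : ℕ) [Fact ℓ.Prime],
        MultilinearMap ℚ_[ℓ] (fun _ : Fin 2 × Fin 2 => ℚ_[ℓ] ⊗[ℚ] W) ℚ_[ℓ],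
      (∀ (ℓ : ℕ) [Fact ℓ.Prime] s v, Θ ℓ (fun l => ρ ℓ s (v l)) = χ ℓ s ^ 2 * Θ ℓ v) ∧
      ∀ Q : Set ℕ, List.TFAE [
        ∀ (ℓ : ℕ) [Fact ℓ.Prime], ℓ ∈ Q → IsCommonCombination ρ χ Q ℓ 2 (Θ ℓ),
        ∀ (ℓ ℓ' : ℕ) [Fact ℓ.Prime] [Fact ℓ'.Prime], ℓ ∈ Q → ℓ' ∈ Q →
          IsCommonCombination ρ χ {ℓ, ℓ'} ℓ 2 (Θ ℓ),
        TateClassesAreCommon ρ χ Q,
        ∃ 𝔤 : Submodule ℚ (Module.End ℚ W), IsCommonLie ρ χ Q 𝔤] := by
  choose hρ hχ ω hωω hωρ using hρ
  obtain ⟨Θ, h1, h2⟩ := quartic_common ρ χ per ω₀ ω hper hR hωω hωρ hρ hχ (fun ℓ => (hK ℓ).1)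
    (fun ℓ => (hK ℓ).2.1) (fun ℓ => (hK ℓ).2.2.1) (fun ℓ => (hK ℓ).2.2.2)
  refine ⟨Θ, h1, fun Q => ?_⟩
  have hT : ∀ (ℓ : ℕ) [Fact ℓ.Prime], IsTateTensor (ρ ℓ) (χ ℓ) 2 (Θ ℓ) := fun ℓ _ =>
    ⟨⊤, inferInstance, fun s _ v => h1 ℓ s v⟩
  have h3 : ∀ Q : Set ℕ, (∃ 𝔤 : Submodule ℚ (Module.End ℚ W), IsCommonLie ρ χ Q 𝔤) →
      TateClassesAreCommon ρ χ Q := by
    rintro Q ⟨𝔤, h𝔤⟩ ℓ _ hℓ m φ hφ
    exact common_of_lie ρ χ Q hρ hχ 𝔤 h𝔤 ℓ hℓ m φ hφ
  tfae_have 1 → 4 := h2 Q
  tfae_have 4 → 3 := h3 Q
  tfae_have 3 → 1 := fun h ℓ _ hℓ => h ℓ hℓ 2 _ (hT ℓ)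
  tfae_have 4 → 2 := by
    rintro ⟨𝔤, h𝔤⟩ ℓ ℓ' _ _ hℓ hℓ'
    have h4 : ({ℓ, ℓ'} : Set ℕ) ⊆ Q := by
      rintro p (rfl | rfl)
      · exact hℓ
      · exact hℓ'
    exact h3 {ℓ, ℓ'} ⟨𝔤, common_mono ρ χ h4 h𝔤⟩ ℓ (by simp) 2 _ (hT ℓ)
  tfae_have 2 → 4 := by
    intro h
    refine common_of_pairs ρ χ Q fun ℓ ℓ' _ _ hℓ hℓ' => h2 {ℓ, ℓ'} fun p _ hp => ?_
    rcases hp with rfl | rfl
    · exact h _ _ hℓ hℓ'
    · rw [Set.pair_comm]
      exact h _ _ hℓ' hℓ
  tfae_finish

end Pool.Agent.Results.MP_e965d0_ag.QuarticClassesDecide
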